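import Pool.Agent.H18.ThF

namespace Pool.Agent.Results.MP_3b2c1c_al.NotEqual

open Pool.Agent.H18.ThF

/-- A class of groups. -/
abbrev GroupClass : Type 1 := ∀ (G : Type) [Group G], Prop

/-- The elements of a direct product that are trivial almost everywhere for an ultrafilter. -/
def nullSub {I : Type} (U : Ultrafilter I) (G : I → Type) [∀ i, Group (G i)] :
    Subgroup (∀ i, G i) where
  carrier := {f | ∀ᶠ i in U, f i = 1}
  one_mem' := Filter.Eventually.of_forall fun _ => rfl
  mul_mem' := fun {f g} hf hg => by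
    filter_upwards [hf, hg] with i h1 h2
    rw [Pi.mul_apply, h1, h2, mul_one]
  inv_mem' := fun {f} hf => by
    filter_upwards [hf] with i h1
    rw [Pi.inv_apply, h1, inv_one]

instance nullSub_normal {I : Type} (U : Ultrafilter I) (G : I → Type) [∀ i, Group (G i)] :
    (nullSub U G).Normal :=
  ⟨fun f hf g => by
    filter_upwards [hf] with i h1
    rw [Pi.mul_apply, Pi.mul_apply, Pi.inv_apply, h1, mul_one, mul_inv_cancel]⟩

/-- A quasivariety: contains the trivial group and is closed under isomorphism, subgroups,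
direct products and ultraproducts. -/
structure IsQuasivariety (C : GroupClass) : Prop where
  trivial : C PUnit
  iso : ∀ (G H : Type) [Group G] [Group H], Nonempty (G ≃* H) → C G → C H
  sub : ∀ (G : Type) [Group G] (H : Subgroup G), C G → C H
  prod : ∀ (I : Type) (G : I → Type) [∀ i, Group (G i)], (∀ i, C (G i)) → C (∀ i, G i)
  ultra : ∀ (I : Type) (U : Ultrafilter I) (G : I → Type) [∀ i, Group (G i)],
    (∀ i, C (G i)) → C ((∀ i, G i) ⧸ nullSub U G)

/-- Closure under extensions. -/
def ExtensionClosed (C : GroupClass) : Prop :=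
  ∀ (G : Type) [Group G] (N : Subgroup G) [N.Normal], C N → C (G ⧸ N) → C G

/-- Brodskii's class: the intersection of all extension-closed quasivarieties containing `ℤ`. -/
def Brodskii (G : Type) [Group G] : Prop :=
  ∀ C : GroupClass, IsQuasivariety C → ExtensionClosed C → C (Multiplicative ℤ) → C G

/-- Locally indicable groups. -/
def LocallyIndicable (G : Type) [Group G] : Prop :=
  ∀ H : Subgroup G, H.FG → H ≠ ⊥ → ∃ φ : H →* Multiplicative ℤ, Function.Surjective φ

lemma qf_quasi : IsQuasivariety (fun G _ => QF G) where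
  trivial := fun _ _ _ _ _ _ => rfl
  iso := fun _ _ _ _ ⟨e⟩ h => QF.of_inj e.symm.toMonoidHom e.symm.injective h
  sub := fun _ _ H h => QF.of_inj H.subtype H.subtype_injective h
  prod := fun _ G _ h _ _ _ _ _ hr => funext fun i =>
    h i _ _ _ _ _ (hr.map (Pi.evalMonoidHom G i))
  ultra := fun I U G _ h x0 x1 x2 x3 x4 hr => by
    induction x0 using QuotientGroup.induction_on with | H x0 =>
    induction x1 using QuotientGroup.induction_on with | H x1 =>
    induction x2 using QuotientGroup.induction_on with | H x2 =>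
    induction x3 using QuotientGroup.induction_on with | H x3 =>
    induction x4 using QuotientGroup.induction_on with | H x4 =>
    have key : ∀ f g : ∀ i, G i, ((f : (∀ i, G i) ⧸ nullSub U G) = g) ↔ ∀ᶠ i in U, f i = g i := by
      intro f g
      rw [QuotientGroup.eq]
      show (∀ᶠ i in U, (f i)⁻¹ * g i = 1) ↔ _
      simp only [inv_mul_eq_one]
    obtain ⟨h1, h2, h3, h4, h5⟩ := hr
    have a1 := (key (x0⁻¹ * x1 * x0) x2).1 h1
    have a2 := (key (x0⁻¹ * x2 * x0) x3).1 h2
    have a3 := (key (x0⁻¹ * x3 * x0) x4).1 h3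
    have a4 := (key (x1⁻¹ * x2 * x1) x3).1 h4
    have a5 := (key (x1⁻¹ * x3 * x1) x4).1 h5
    rw [key]
    filter_upwards [a1, a2, a3, a4, a5] with i b1 b2 b3 b4 b5
    exact h i (x0 i) (x1 i) (x2 i) (x3 i) (x4 i) ⟨b1, b2, b3, b4, b5⟩

theorem result : ∃ (G : Type) (_ : Group G), LocallyIndicable G ∧ ¬ Brodskii G := by
  refine ⟨P, inferInstance, P_ind, fun h => not_QF (h (fun G _ => QF G) qf_quasi
    (fun G _ N _ hN hQ => QF_ext N hN hQ) ?_)⟩
  intro x0 x1 x2 _ _ hr
  rw [← hr.1, mul_comm x0⁻¹ x1, inv_mul_cancel_right]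

end Pool.Agent.Results.MP_3b2c1c_al.NotEqual
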